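import Mathlib

/-!
# Every Steiner loop is a homomorphic image of a Steiner loop in which associativity propagates

The free Steiner loop on a set has no Pasch configuration, hence `x(yz) = (xy)z` holds in it only
when `x, y, z` generate a subloop of order at most four, which is a group.  Every Steiner loop is a
homomorphic image of a free one.
-/

set_option autoImplicit false

universe u

namespace Pool.Agent.Results.MP_b3a441_al.FreeCover

/-- A Steiner loop: a set with a product and a neutral element `1` satisfying `xy = yx` and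
`x(xy) = y`.  (Then `ax = b` has the unique solution `x = ab`, so this is a loop.) -/
class SteinerLoop (X : Type u) extends Mul X, One X where
  one_mul' : ∀ x : X, 1 * x = x
  comm' : ∀ x y : X, x * y = y * x
  left_cancel' : ∀ x y : X, x * (x * y) = y

/-- Membership in the subloop generated by `x, y, z`: the intersection of all subsets containing
`1, x, y, z` which are closed under multiplication. -/
def InGen {X : Type u} [SteinerLoop X] (x y z a : X) : Prop :=
  ∀ S : Set X, (1 : X) ∈ S → (∀ p ∈ S, ∀ q ∈ S, p * q ∈ S) → x ∈ S → y ∈ S → z ∈ S → a ∈ S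

/-- Associativity propagates in `X`. -/
def AssocPropagates (X : Type u) [SteinerLoop X] : Prop :=
  ∀ x y z : X, x * (y * z) = (x * y) * z →
    ∀ a b c : X, InGen x y z a → InGen x y z b → InGen x y z c → a * (b * c) = (a * b) * c

section basics

variable {X : Type u} [SteinerLoop X]

lemma one_mul_s (x : X) : 1 * x = x := SteinerLoop.one_mul' x
lemma comm_s (x y : X) : x * y = y * x := SteinerLoop.comm' x y
lemma cancel_s (x y : X) : x * (x * y) = y := SteinerLoop.left_cancel' x y
lemma mul_one_s (x : X) : x * 1 = x := by rw [comm_s, one_mul_s]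
lemma sq_s (x : X) : x * x = 1 := by
  have := cancel_s x 1
  rwa [mul_one_s] at this
lemma cancel_s' (x y : X) : (x * y) * x = y := by rw [comm_s, cancel_s]
lemma cancel_s'' (x y : X) : (y * x) * x = y := by rw [comm_s y x, cancel_s']
lemma cancel_s''' (x y : X) : x * (y * x) = y := by rw [comm_s y x, cancel_s]

/-- sanity check: a Steiner loop is a loop (unique left division). -/
lemma existsUnique_div (a b : X) : ∃! x : X, a * x = b :=
  ⟨a * b, cancel_s a b, fun y hy => by rw [← hy, cancel_s]⟩

/-- the subset `{1, u, v, uv}` -/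
def four (p q : X) : Set X := {a | a = 1 ∨ a = p ∨ a = q ∨ a = p * q}

lemma four_closed (p q : X) : ∀ a ∈ four p q, ∀ b ∈ four p q, a * b ∈ four p q := by
  intro a ha b hb
  simp only [four, Set.mem_ofPred_eq] at ha hb ⊢
  rcases ha with rfl | rfl | rfl | rfl <;> rcases hb with rfl | rfl | rfl | rfl <;>
    simp [one_mul_s, mul_one_s, sq_s, cancel_s, cancel_s', cancel_s'', cancel_s''', comm_s]

lemma four_assoc (p q : X) : ∀ a ∈ four p q, ∀ b ∈ four p q, ∀ c ∈ four p q,
    a * (b * c) = (a * b) * c := by
  intro a ha b hb c hc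
  simp only [four, Set.mem_ofPred_eq] at ha hb hc
  have e1 : q * p = p * q := comm_s q p
  rcases ha with rfl | rfl | rfl | rfl <;> rcases hb with rfl | rfl | rfl | rfl <;>
    rcases hc with rfl | rfl | rfl | rfl <;>
    simp only [one_mul_s, mul_one_s, sq_s, cancel_s, cancel_s', cancel_s'', cancel_s''', e1]

lemma assoc_of_four (x y z p q : X) (hx : x ∈ four p q) (hy : y ∈ four p q) (hz : z ∈ four p q)
    (a b c : X) (ha : InGen x y z a) (hb : InGen x y z b) (hc : InGen x y z c) :
    a * (b * c) = (a * b) * c :=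
  four_assoc p q a (ha _ (Or.inl rfl) (four_closed p q) hx hy hz)
    b (hb _ (Or.inl rfl) (four_closed p q) hx hy hz)
    c (hc _ (Or.inl rfl) (four_closed p q) hx hy hz)

/-- If all associating triples are degenerate, then associativity propagates. -/
lemma propagates_of_deg
    (h : ∀ x y z : X, x * (y * z) = (x * y) * z →
      x = 1 ∨ y = 1 ∨ z = 1 ∨ x = y ∨ y = z ∨ x = z ∨ z = x * y) : AssocPropagates X := by
  intro x y z hxyz a b c ha hb hc
  rcases h x y z hxyz with h | h | h | h | h | h | h
  · exact assoc_of_four x y z y z (by simp [four, h]) (by simp [four]) (by simp [four]) a b c ha hb hc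
  · exact assoc_of_four x y z x z (by simp [four]) (by simp [four, h]) (by simp [four]) a b c ha hb hc
  · exact assoc_of_four x y z x y (by simp [four]) (by simp [four]) (by simp [four, h]) a b c ha hb hc
  · exact assoc_of_four x y z y z (by simp [four, h]) (by simp [four]) (by simp [four]) a b c ha hb hc
  · exact assoc_of_four x y z x z (by simp [four]) (by simp [four, h]) (by simp [four]) a b c ha hb hc
  · exact assoc_of_four x y z y z (by simp [four, h]) (by simp [four]) (by simp [four]) a b c ha hb hc
  · exact assoc_of_four x y z x y (by simp [four]) (by simp [four]) (by simp [four, h]) a b c ha hb hc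

end basics

/-! ### From triple systems to Steiner loops -/

/-- A Steiner triple system given by a ternary relation. -/
structure TS (R : Type u) where
  B : R → R → R → Prop
  swap : ∀ {a b c}, B a b c → B b a c
  rot : ∀ {a b c}, B a b c → B b c a
  ne : ∀ {a b c}, B a b c → a ≠ b
  ex : ∀ a b, a ≠ b → ∃ c, B a b c
  uniq : ∀ {a b c d}, B a b c → B a b d → c = d

namespace TS

variable {R : Type u} (S : TS R)

open Classical in
/-- multiplication on `Option R`; `none` is the neutral element. -/
noncomputable def mulO : Option R → Option R → Option R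
  | none, y => y
  | some a, none => some a
  | some a, some b => if h : a = b then none else some (S.ex a b h).choose

lemma mulO_none (y : Option R) : S.mulO none y = y := rfl

lemma mulO_self (a : R) : S.mulO (some a) (some a) = none := by simp [mulO]

lemma mulO_of_B {a b c : R} (h : S.B a b c) : S.mulO (some a) (some b) = some c := by
  have hne := S.ne h
  simp only [mulO, hne, dif_neg, not_false_iff]
  congr 1
  exact S.uniq (S.ex a b hne).choose_spec h

lemma exists_of_ne {a b : R} (h : a ≠ b) : ∃ c, S.B a b c ∧ S.mulO (some a) (some b) = some c := by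
  obtain ⟨c, hc⟩ := S.ex a b h
  exact ⟨c, hc, S.mulO_of_B hc⟩

lemma mulO_comm (x y : Option R) : S.mulO x y = S.mulO y x := by
  cases x with
  | none => cases y <;> rfl
  | some a =>
    cases y with
    | none => rfl
    | some b =>
      by_cases h : a = b
      · subst h; rfl
      · obtain ⟨c, hc, h1⟩ := S.exists_of_ne h
        rw [h1, S.mulO_of_B (S.swap hc)]

lemma mulO_cancel (x y : Option R) : S.mulO x (S.mulO x y) = y := by
  cases x with
  | none => rfl
  | some a =>
    cases y with
    | none => show S.mulO (some a) (some a) = none; exact S.mulO_self a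
    | some b =>
      by_cases h : a = b
      · subst h; rw [S.mulO_self]; rfl
      · obtain ⟨c, hc, h1⟩ := S.exists_of_ne h
        rw [h1]
        -- B a c b
        exact S.mulO_of_B (S.swap (S.rot (S.rot hc)))

/-- The Steiner loop of a triple system. -/
@[instance_reducible] noncomputable def loop : SteinerLoop (Option R) where
  mul := S.mulO
  one := none
  one_mul' := fun _ => rfl
  comm' := S.mulO_comm
  left_cancel' := S.mulO_cancel

end TS

/-! ### The free triple system -/

/-- binary trees with leaves labelled by `A` -/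
inductive T (A : Type u) : Type u
  | gen : A → T A
  | node : T A → T A → T A

namespace T

variable {A : Type u}

def size : T A → ℕ
  | gen _ => 0
  | node s t => s.size + t.size + 1

noncomputable instance : LinearOrder (T A) := by
  classical exact linearOrderOfSTO WellOrderingRel

/-- the unordered node -/
noncomputable def nd (s t : T A) : T A := if s < t then node s t else node t s

lemma nd_comm {s t : T A} : nd s t = nd t s := by
  unfold nd
  rcases lt_trichotomy s t with h | h | h
  · simp [h, h.asymm]
  · subst h; rfl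
  · simp [h, h.asymm]

lemma nd_inj {s t s' t' : T A} (h : nd s t = nd s' t') : (s = s' ∧ t = t') ∨ (s = t' ∧ t = s') := by
  unfold nd at h
  split_ifs at h <;> (injection h with h1 h2; subst h1; subst h2; simp)

lemma size_nd (s t : T A) : (nd s t).size = s.size + t.size + 1 := by
  unfold nd
  split_ifs
  · rfl
  · simp only [size]; omega

/-- `c` is a child of `t`. -/
def Child (c t : T A) : Prop := ∃ d, t = nd c d

/-- reduced trees -/
inductive Red : T A → Prop
  | gen (a : A) : Red (gen a)
  | nd (s t : T A) : Red s → Red t → s ≠ t → ¬ Child s t → ¬ Child t s → Red (nd s t)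

lemma gen_ne_nd (a : A) (s t : T A) : gen a ≠ nd s t := by
  unfold nd
  split_ifs <;> exact fun h => by cases h

lemma Red.of_nd {s t : T A} (h : Red (T.nd s t)) :
    Red s ∧ Red t ∧ s ≠ t ∧ ¬ Child s t ∧ ¬ Child t s := by
  generalize hx : T.nd s t = x at h
  cases h with
  | gen a => exact absurd hx.symm (gen_ne_nd a s t)
  | nd s' t' h1 h2 h3 h4 h5 =>
    rcases nd_inj hx with ⟨rfl, rfl⟩ | ⟨rfl, rfl⟩
    · exact ⟨h1, h2, h3, h4, h5⟩
    · exact ⟨h2, h1, h3.symm, h5, h4⟩

/-- blocks -/
def Bl (a b c : {t : T A // Red t}) : Prop :=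
  c.1 = nd a.1 b.1 ∨ a.1 = nd b.1 c.1 ∨ b.1 = nd a.1 c.1

lemma Bl.ne {a b c : {t : T A // Red t}} (h : Bl a b c) : a ≠ b := by
  rintro rfl
  rcases h with h | h | h
  · have := c.2
    rw [h] at this
    exact this.of_nd.2.2.1 rfl
  · have := congrArg size h
    rw [size_nd] at this; omega
  · have := congrArg size h
    rw [size_nd] at this; omega

/-- the free triple system on `A` -/
def ts (A : Type u) : TS {t : T A // Red t} where
  B := Bl
  swap := by
    rintro a b c (h | h | h)
    · left; rw [h, nd_comm]
    · right; right; exact h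
    · right; left; exact h
  rot := by
    rintro a b c (h | h | h)
    · right; right; rw [h, nd_comm]
    · left; exact h
    · right; left; rw [h, nd_comm]
  ne := Bl.ne
  ex := by
    intro a b hab
    by_cases h1 : Child a.1 b.1
    · obtain ⟨d, hd⟩ := h1
      have := b.2
      rw [hd] at this
      exact ⟨⟨d, this.of_nd.2.1⟩, Or.inr (Or.inr hd)⟩
    · by_cases h2 : Child b.1 a.1
      · obtain ⟨d, hd⟩ := h2
        have := a.2
        rw [hd] at this
        exact ⟨⟨d, this.of_nd.2.1⟩, Or.inr (Or.inl hd)⟩
      · exact ⟨⟨nd a.1 b.1, Red.nd _ _ a.2 b.2 (fun h => hab (Subtype.ext h)) h1 h2⟩, Or.inl rfl⟩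
  uniq := by
    intro a b c d h h'
    have hs := h.ne
    have hcr := c.2
    have hdr := d.2
    have har := a.2
    have hbr := b.2
    rcases h with h | h | h <;> rcases h' with h' | h' | h'
    · exact Subtype.ext (h.trans h'.symm)
    · rw [h] at hcr
      exact absurd ⟨d.1, h'⟩ hcr.of_nd.2.2.2.2
    · rw [h] at hcr
      exact absurd ⟨d.1, h'⟩ hcr.of_nd.2.2.2.1
    · rw [h'] at hdr
      exact absurd ⟨c.1, h⟩ hdr.of_nd.2.2.2.2
    · rw [h] at h'
      rcases nd_inj h' with ⟨_, h2⟩ | ⟨h1, h2⟩
      · exact Subtype.ext h2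
      · exact Subtype.ext (h2.trans h1)
    · have h1 := congrArg size h
      have h2 := congrArg size h'
      rw [size_nd] at h1 h2; omega
    · rw [h'] at hdr
      exact absurd ⟨c.1, h⟩ hdr.of_nd.2.2.2.1
    · have h1 := congrArg size h
      have h2 := congrArg size h'
      rw [size_nd] at h1 h2; omega
    · rw [h] at h'
      rcases nd_inj h' with ⟨_, h2⟩ | ⟨h1, h2⟩
      · exact Subtype.ext h2
      · exact Subtype.ext (h2.trans h1)

/-- A point of maximal size in two blocks: the two blocks coincide. -/
lemma max_block {a b a' b' c : {t : T A // Red t}} (h : Bl a b c) (h' : Bl a' b' c)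
    (h1 : a.1.size ≤ c.1.size) (h2 : b.1.size ≤ c.1.size)
    (h3 : a'.1.size ≤ c.1.size) (h4 : b'.1.size ≤ c.1.size) :
    (a = a' ∧ b = b') ∨ (a = b' ∧ b = a') := by
  have e1 : c.1 = nd a.1 b.1 := by
    rcases h with h | h | h
    · exact h
    · have := congrArg size h
      rw [size_nd] at this; omega
    · have := congrArg size h
      rw [size_nd] at this; omega
  have e2 : c.1 = nd a'.1 b'.1 := by
    rcases h' with h | h | h
    · exact h
    · have := congrArg size h
      rw [size_nd] at this; omega
    · have := congrArg size h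
      rw [size_nd] at this; omega
  rw [e1] at e2
  rcases nd_inj e2 with ⟨x, y⟩ | ⟨x, y⟩
  · exact Or.inl ⟨Subtype.ext x, Subtype.ext y⟩
  · exact Or.inr ⟨Subtype.ext x, Subtype.ext y⟩

/-- There is no Pasch configuration. -/
lemma no_pasch {a b c p q w : {t : T A // Red t}} (hab : a ≠ b) (hbc : b ≠ c) (hac : a ≠ c)
    (h1 : (ts A).B a b p) (h2 : (ts A).B b c q) (h3 : (ts A).B a q w) (h4 : (ts A).B p c w) :
    False := by
  have S := ts A
  have r1 : (ts A).B b p a := (ts A).rot h1
  have r1' : (ts A).B p a b := (ts A).rot r1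
  have r2 : (ts A).B c q b := (ts A).rot h2
  have r2' : (ts A).B q b c := (ts A).rot r2
  have r3 : (ts A).B q w a := (ts A).rot h3
  have r3' : (ts A).B w a q := (ts A).rot r3
  have r4 : (ts A).B c w p := (ts A).rot h4
  have r4' : (ts A).B w p c := (ts A).rot r4
  have npq : p ≠ q := by
    rintro rfl
    -- B b p a, B b p c
    exact hac ((ts A).uniq r1 ((ts A).swap r2'))
  have hbq : b ≠ q := ((ts A).ne r2').symm
  have haq : a ≠ q := (ts A).ne h3
  have hbp : b ≠ p := (ts A).ne r1
  have hap : a ≠ p := ((ts A).ne r1').symm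
  by_cases ma : b.1.size ≤ a.1.size ∧ c.1.size ≤ a.1.size ∧ p.1.size ≤ a.1.size ∧
      q.1.size ≤ a.1.size ∧ w.1.size ≤ a.1.size
  · obtain ⟨m1, m2, m3, m4, m5⟩ := ma
    rcases max_block r1 r3 m1 m3 m4 m5 with ⟨x, y⟩ | ⟨x, y⟩
    · exact hbq x
    · exact npq y
  by_cases mb : a.1.size ≤ b.1.size ∧ c.1.size ≤ b.1.size ∧ p.1.size ≤ b.1.size ∧
      q.1.size ≤ b.1.size ∧ w.1.size ≤ b.1.size
  · obtain ⟨m1, m2, m3, m4, m5⟩ := mb
    rcases max_block r1' r2 m3 m1 m2 m4 with ⟨x, y⟩ | ⟨x, y⟩
    · exact haq y
    · exact hac y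
  by_cases mc : a.1.size ≤ c.1.size ∧ b.1.size ≤ c.1.size ∧ p.1.size ≤ c.1.size ∧
      q.1.size ≤ c.1.size ∧ w.1.size ≤ c.1.size
  · obtain ⟨m1, m2, m3, m4, m5⟩ := mc
    rcases max_block r2' r4' m4 m2 m5 m3 with ⟨x, y⟩ | ⟨x, y⟩
    · exact hbp y
    · exact npq x.symm
  by_cases mp : a.1.size ≤ p.1.size ∧ b.1.size ≤ p.1.size ∧ c.1.size ≤ p.1.size ∧
      q.1.size ≤ p.1.size ∧ w.1.size ≤ p.1.size
  · obtain ⟨m1, m2, m3, m4, m5⟩ := mp
    rcases max_block h1 r4 m1 m2 m3 m5 with ⟨x, y⟩ | ⟨x, y⟩
    · exact hac x
    · exact hbc y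
  by_cases mq : a.1.size ≤ q.1.size ∧ b.1.size ≤ q.1.size ∧ c.1.size ≤ q.1.size ∧
      p.1.size ≤ q.1.size ∧ w.1.size ≤ q.1.size
  · obtain ⟨m1, m2, m3, m4, m5⟩ := mq
    rcases max_block h2 r3' m2 m3 m5 m1 with ⟨x, y⟩ | ⟨x, y⟩
    · exact hac y.symm
    · exact hab x.symm
  by_cases mw : a.1.size ≤ w.1.size ∧ b.1.size ≤ w.1.size ∧ c.1.size ≤ w.1.size ∧
      p.1.size ≤ w.1.size ∧ q.1.size ≤ w.1.size
  · obtain ⟨m1, m2, m3, m4, m5⟩ := mw
    rcases max_block h3 h4 m1 m5 m4 m3 with ⟨x, y⟩ | ⟨x, y⟩
    · exact hap x
    · exact hac x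
  omega

end T

/-- The free Steiner loop on `A`. -/
abbrev Free (A : Type u) : Type u := Option {t : T A // T.Red t}

noncomputable instance (A : Type u) : SteinerLoop (Free A) := (T.ts A).loop

lemma free_mul {A : Type u} (x y : Free A) : x * y = (T.ts A).mulO x y := rfl

lemma free_propagates (A : Type u) : AssocPropagates (Free A) := by
  apply propagates_of_deg
  intro x y z h
  by_contra hdeg
  simp only [not_or] at hdeg
  obtain ⟨hx, hy, hz, hxy, hyz, hxz, hzxy⟩ := hdeg
  obtain ⟨a, rfl⟩ : ∃ a, x = some a := Option.ne_none_iff_exists'.1 hx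
  obtain ⟨b, rfl⟩ : ∃ a, y = some a := Option.ne_none_iff_exists'.1 hy
  obtain ⟨c, rfl⟩ : ∃ a, z = some a := Option.ne_none_iff_exists'.1 hz
  have hab : a ≠ b := fun h => hxy (by rw [h])
  have hbc : b ≠ c := fun h => hyz (by rw [h])
  have hac : a ≠ c := fun h => hxz (by rw [h])
  obtain ⟨p, hp, ep⟩ := (T.ts A).exists_of_ne hab
  obtain ⟨q, hq, eq⟩ := (T.ts A).exists_of_ne hbc
  rw [← free_mul] at ep eq
  have haq : a ≠ q := by
    rintro rfl
    apply hzxy
    rw [← eq, comm_s (some b) (some c), cancel_s'']
  have hpc : p ≠ c := by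
    rintro rfl
    exact hzxy ep.symm
  obtain ⟨w, hw, ew⟩ := (T.ts A).exists_of_ne haq
  obtain ⟨w', hw', ew'⟩ := (T.ts A).exists_of_ne hpc
  rw [← free_mul] at ew ew'
  rw [ep, eq, ew, ew'] at h
  have hww : w = w' := Option.some_injective _ h
  subst hww
  exact T.no_pasch hab hbc hac hp hq hw hw'

section eval

variable {F : Type u} [SteinerLoop F]

/-- evaluation of trees -/
def ev : T F → F
  | T.gen a => a
  | T.node s t => ev s * ev t

lemma ev_nd (s t : T F) : ev (T.nd s t) = ev s * ev t := by
  unfold T.nd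
  split_ifs
  · rfl
  · show ev t * ev s = _
    rw [comm_s]

/-- evaluation on the free Steiner loop -/
def evO : Free F → F
  | none => 1
  | some t => ev t.1

lemma ev_block {a b c : {t : T F // T.Red t}} (h : T.Bl a b c) : ev a.1 * ev b.1 = ev c.1 := by
  rcases h with h | h | h
  · rw [h, ev_nd]
  · rw [h, ev_nd, cancel_s']
  · rw [h, ev_nd, cancel_s]

lemma evO_mul (x y : Free F) : evO (x * y) = evO x * evO y := by
  cases x with
  | none => exact (one_mul_s _).symm
  | some a =>
    cases y with
    | none => exact (mul_one_s _).symm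
    | some b =>
      by_cases h : a = b
      · subst h
        rw [free_mul, TS.mulO_self]
        exact (sq_s _).symm
      · obtain ⟨c, hc, e⟩ := (T.ts F).exists_of_ne h
        rw [free_mul, e]
        exact (ev_block hc).symm

end eval

/-- **Theorem.** Every Steiner loop `F` (finite or not, in any universe) is a homomorphic image of a
Steiner loop `X` in which associativity propagates. -/
theorem result (F : Type u) [SteinerLoop F] :
    ∃ (X : Type u) (_ : SteinerLoop X), AssocPropagates X ∧
      ∃ f : X →ₙ* F, Function.Surjective f := by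
  refine ⟨Free F, inferInstance, free_propagates F, ⟨evO, evO_mul⟩, ?_⟩
  intro a
  exact ⟨some ⟨T.gen a, T.Red.gen a⟩, rfl⟩

end Pool.Agent.Results.MP_b3a441_al.FreeCover
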